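import Mathlib

namespace Pool.Agent.H.MP_bd9785_lc

/-- infinite subsets of `ℕ`, as a subspace of the Cantor space -/
abbrev Inf := {y : ℕ → Bool // {n | y n = true}.Infinite}

/-- the least element -/
noncomputable def mn (y : Inf) : ℕ := sInf {n | y.1 n = true}

/-- the shift: remove the least element -/
noncomputable def S (y : Inf) : Inf :=
  ⟨Function.update y.1 (mn y) false, (y.2.diff (Set.finite_singleton (mn y))).mono fun n hn => by
    have h : n ≠ mn y := hn.2
    simpa [Function.update_of_ne h] using hn.1⟩

/-- adjacency in the shift graph -/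
def Adj (y z : Inf) : Prop := y ≠ z ∧ (z = S y ∨ y = S z)

/-- the shift graph restricted to `A` has finite Borel chromatic number -/
def FinCol (A : Set Inf) : Prop :=
  ∃ (k : ℕ) (c : A → Fin k), Measurable c ∧ ∀ y z : A, Adj y z → c y ≠ c z

end Pool.Agent.H.MP_bd9785_lc
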