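import Mathlib
import Pool.Agent.H.MP_93a5dd_an.A
import Pool.Agent.H.MP_bd9785_lc.Defs

namespace Pool.Agent.H.MP_bd9785_lc

open Set Filter Topology MeasureTheory Pool.Agent.H.MP_93a5dd_an

theorem meas_sInf {α : Type} [MeasurableSpace α] {p : α → ℕ → Prop}
    (hp : ∀ n, Measurable fun a => p a n) : Measurable fun a => sInf {n | p a n} := by
  refine measurable_to_countable' fun k => ?_
  have : (fun a => sInf {n | p a n}) ⁻¹' {k} = {t | (p t k ∧ ∀ j, j < k → ¬ p t j) ∨
      (k = 0 ∧ ∀ j, ¬ p t j)} := by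
    ext t
    simp only [mem_preimage, mem_singleton_iff, mem_ofPred_eq]
    by_cases h : {k | p t k}.Nonempty
    · constructor
      · rintro rfl
        exact Or.inl ⟨Nat.sInf_mem h, fun j hj => Nat.notMem_of_lt_sInf hj⟩
      · rintro (⟨h1, h2⟩ | ⟨-, h2⟩)
        · exact le_antisymm (Nat.sInf_le h1) (not_lt.1 fun h3 => h2 _ h3 (Nat.sInf_mem h))
        · exact absurd h.some_mem (h2 _)
    · rw [not_nonempty_iff_eq_empty] at h
      have h' : ∀ j, ¬ p t j := fun j hj => (h.subset hj : False)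
      rw [h, Nat.sInf_empty]
      exact ⟨fun e => Or.inr ⟨e.symm, h'⟩, fun e => e.elim (fun a => absurd a.1 (h' _))
        fun a => a.1.symm⟩
  rw [this, measurableSet_setOfPred]
  exact ((hp _).and (Measurable.forall fun j => measurable_const.imp (hp _).not)).or
    (measurable_const.and (Measurable.forall fun j => (hp _).not))

theorem mn_meas : Measurable mn :=
  meas_sInf fun n => measurableSet_setOfPred.1 (measurableSet_eq_fun
    ((measurable_pi_apply n).comp measurable_subtype_coe) measurable_const)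

theorem S_meas : Measurable S := by
  have h : Measurable fun y : Inf => (S y).1 := by
    refine measurable_pi_lambda _ fun n => ?_
    have : (fun y : Inf => (S y).1 n) = fun y => if n = mn y then false else y.1 n := by
      funext y; simp [S, Function.update_apply]
    rw [this]
    exact Measurable.ite (measurableSet_eq_fun measurable_const mn_meas) measurable_const
      ((measurable_pi_apply n).comp measurable_subtype_coe)
  exact h.subtype_mk

theorem mn_lt (y : Inf) : mn y < mn (S y) := by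
  have h : (S y).1 (mn (S y)) = true := Nat.sInf_mem (S y).2.nonempty
  have h1 : mn (S y) ≠ mn y := fun e => by rw [e] at h; simp [S] at h
  have h2 : y.1 (mn (S y)) = true := by
    have h3 : Function.update y.1 (mn y) false (mn (S y)) = true := h
    rwa [Function.update_of_ne h1] at h3
  exact lt_of_le_of_ne (Nat.sInf_le h2) h1.symm

noncomputable def en (y : Inf) (n : ℕ) : ℕ := mn (S^[n] y)

theorem en_meas : Measurable en :=
  measurable_pi_lambda _ fun n => mn_meas.comp (S_meas.iterate n)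

theorem en_mono (y : Inf) : StrictMono (en y) := strictMono_nat_of_lt_succ fun n => by
  rw [en, en, Function.iterate_succ_apply']; exact mn_lt _

theorem col_of {h : Inf → Bool} (hm : Measurable h) {A : Set Inf}
    (hA : ∀ y ∈ A, ∃ n, h (S^[n] y) ≠ h y) : FinCol A := by
  let ρ : Inf → ℕ := fun y => sInf {n | h (S^[n] y) ≠ h y}
  have hρ : Measurable ρ := meas_sInf fun n =>
    (measurableSet_setOfPred.1 (measurableSet_eq_fun (hm.comp (S_meas.iterate n)) hm)).not
  let g : Bool × ℕ → Fin 4 := fun q => ⟨2 * q.1.toNat + q.2 % 2, by cases q.1 <;> simp <;> omega⟩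
  have key : ∀ y ∈ A, g (h y, ρ y) ≠ g (h (S y), ρ (S y)) := by
    intro y hy e
    have e' : 2 * (h y).toNat + ρ y % 2 = 2 * (h (S y)).toNat + ρ (S y) % 2 := congrArg Fin.val e
    have e1 : h y = h (S y) := by
      revert e'; cases h y <;> cases h (S y) <;> simp <;> omega
    have e2 : ρ y = ρ (S y) + 1 := by
      have a1 : h (S^[ρ y] y) ≠ h y := Nat.sInf_mem (hA y hy)
      obtain ⟨k, hk⟩ : ∃ k, ρ y = k + 1 :=
        Nat.exists_eq_succ_of_ne_zero fun h0 => by rw [h0] at a1; exact a1 rfl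
      have a2 : h (S^[k] (S y)) ≠ h (S y) := by rw [hk, e1] at a1; exact a1
      have a3 : ρ (S y) ≤ k := Nat.sInf_le a2
      have a4 : h (S^[ρ (S y)] (S y)) ≠ h (S y) :=
        Nat.sInf_mem (s := {n | h (S^[n] (S y)) ≠ h (S y)}) ⟨k, a2⟩
      have a5 : ρ y ≤ ρ (S y) + 1 := Nat.sInf_le (by rw [← e1] at a4; exact a4)
      omega
    rw [e1] at e'
    omega
  refine ⟨4, fun y => g (h y, ρ y), (measurable_of_countable g).comp
    ((hm.prodMk hρ).comp measurable_subtype_coe), ?_⟩
  rintro y z ⟨-, e | e⟩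
  · simpa [e] using key y y.2
  · simpa [e] using (key z z.2).symm

theorem nondom (z : ℕ → ℕ) {A : Set Inf} (hA : ∀ y ∈ A, ¬ ∃ c, ∀ n, z n ≤ en y (n + c)) :
    FinCol A := by
  classical
  let i : ℕ → ℕ := fun m => Nat.findGreatest (fun k => ∀ j < k, z j ≤ m) m
  have i1 : ∀ m n, n < i m → z n ≤ m := fun m n h =>
    (Nat.findGreatest_spec (P := fun k => ∀ j < k, z j ≤ m) (Nat.zero_le m) (by simp)) n h
  have i2 : ∀ k m, k ≤ m → (∀ j < k, z j ≤ m) → k ≤ i m := fun k m a b =>
    Nat.le_findGreatest a b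
  have i3 : Monotone i := fun a b h => i2 _ _ ((Nat.findGreatest_le a).trans h)
    fun j hj => (i1 a j hj).trans h
  refine col_of (h := fun y => decide (i (en y 0) = i (en y 1))) ?_ fun y hy => ?_
  · exact (measurable_of_countable fun q : ℕ × ℕ => decide (i q.1 = i q.2)).comp
      (((measurable_pi_apply 0).comp en_meas).prodMk ((measurable_pi_apply 1).comp en_meas))
  by_contra hn
  push Not at hn
  have e : ∀ n k, en (S^[n] y) k = en y (k + n) := fun n k => by
    rw [en, en, Function.iterate_add_apply]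
  simp only [e, decide_eq_decide, zero_add] at hn
  by_cases h0 : i (en y 0) = i (en y 1)
  · have h1 : ∀ n, i (en y n) = i (en y 0) := fun n => by
      induction n with
      | zero => rfl
      | succ n ih => rw [add_comm, ← (hn n).2 h0, ih]
    let M := i (en y 0) + 1 + (Finset.range (i (en y 0) + 1)).sup z
    have h2 : M ≤ en y M := (en_mono y).id_le M
    have h3 := i2 (i (en y 0) + 1) (en y M) (by omega) fun j hj => by
      have : z j ≤ (Finset.range (i (en y 0) + 1)).sup z :=
        Finset.le_sup (f := z) (Finset.mem_range.2 hj)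
      omega
    rw [h1 M] at h3
    omega
  · have h1 : ∀ n, n ≤ i (en y n) := fun n => by
      induction n with
      | zero => exact Nat.zero_le _
      | succ n ih =>
        have a1 := i3 ((en_mono y).monotone (Nat.le_succ n))
        have a2 : i (en y n) ≠ i (en y (n + 1)) := fun h => h0 ((hn n).1 (by rw [add_comm]; exact h))
        simp only [Nat.succ_eq_add_one] at a1
        omega
    exact hA y hy ⟨1, fun n => i1 _ _ (h1 (n + 1))⟩

theorem closed_dom {f : (ℕ → ℕ) → P} (hf : Continuous f) (Q : Set ℕ) (c : ℕ) :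
    IsClosed {q : P × (ℕ → ℕ) | ∃ z, z 0 ∈ Q ∧ f z = q.1 ∧ ∀ n, z n ≤ q.2 (n + c)} := by
  refine isClosed_of_closure_subset fun q hq => ?_
  obtain ⟨s, hs, hl⟩ := mem_closure_iff_seq_limit.1 hq
  choose z h1 h2 h3 using hs
  have h4 : ∀ n, Tendsto (fun k => (s k).2 n) atTop (𝓝 (q.2 n)) := fun n =>
    (((continuous_apply n).comp continuous_snd).tendsto q).comp hl
  choose b hb using fun n => (h4 n).bddAbove_range
  obtain ⟨a, -, φ, hφ, ha⟩ := (isCompact_univ_pi fun n => (finite_Iic (b (n + c))).isCompact).tendsto_subseq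
    (x := z) fun k n _ => (h3 k n).trans (hb (n + c) ⟨k, rfl⟩)
  have h5 : ∀ n, Tendsto (fun k => z (φ k) n) atTop (𝓝 (a n)) := fun n =>
    ((continuous_apply n).tendsto a).comp ha
  refine ⟨a, (isClosed_discrete Q).mem_of_tendsto (h5 0) (Eventually.of_forall fun k => h1 _),
    tendsto_nhds_unique ((hf.tendsto a).comp ha) ?_, fun n =>
      le_of_tendsto_of_tendsto' (h5 n) ((h4 (n + c)).comp hφ.tendsto_atTop) fun k => h3 _ n⟩
  exact (((continuous_fst.tendsto q).comp hl).comp hφ.tendsto_atTop).congr fun k => (h2 _).symm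

theorem main : ∃ B : Set ((ℕ → ℕ) × Inf), MeasurableSet B ∧ (∀ x, FinCol {y | (x, y) ∈ B}) ∧
    ¬ ∃ g : (ℕ → ℕ) → Inf, Measurable g ∧ ∀ x, (x, g x) ∉ B := by
  obtain ⟨f, hf, hs, hB⟩ := exf
  let D : Set ℕ → Set (P × (ℕ → ℕ)) := fun Q =>
    ⋃ c, {q : P × (ℕ → ℕ) | ∃ z, z 0 ∈ Q ∧ f z = q.1 ∧ ∀ n, z n ≤ q.2 (n + c)}
  have hD : ∀ Q, MeasurableSet (D Q) := fun Q =>
    MeasurableSet.iUnion fun c => (closed_dom hf Q c).measurableSet
  let π : (ℕ → ℕ) → P := fun x n => decide (x n = 1)
  have hπ : Measurable π := measurable_pi_lambda _ fun n =>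
    (measurable_of_countable fun k : ℕ => decide (k = 1)).comp (measurable_pi_apply n)
  have hn : ∀ t, π (nt t) = t := fun t => funext fun n => by
    exact (by decide : ∀ b : Bool, decide (b.toNat = 1) = b) (t n)
  refine ⟨(fun q => (π q.1, en q.2)) ⁻¹' (D univ)ᶜ,
    ((hπ.comp measurable_fst).prodMk (en_meas.comp measurable_snd)) (hD _).compl, fun x => ?_, ?_⟩
  · obtain ⟨z, hz⟩ := hs (π x)
    exact nondom z fun y hy ⟨c, hc⟩ => hy (mem_iUnion.2 ⟨c, z, trivial, hz, hc⟩)
  · rintro ⟨g, hg, h⟩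
    refine hB ((fun t => (t, en (g (nt t)))) ⁻¹' D {0})
      ((measurable_id.prodMk (en_meas.comp (hg.comp nt_cont.measurable))) (hD _))
      (fun t ht => ?_) fun t ht => ?_
    · obtain ⟨c, z, a, b, -⟩ := mem_iUnion.1 ht
      exact ⟨z, a, b⟩
    · obtain ⟨c, z, -, b, d⟩ := mem_iUnion.1 (not_not.1 (h (nt t)))
      have b' := b.trans (hn t)
      exact ⟨z, fun a => ht (mem_iUnion.2 ⟨c, z, a, b', d⟩), b'⟩

end Pool.Agent.H.MP_bd9785_lc
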